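import Mathlib
import Pool.Agent.FBH.NoClosed
import Pool.Agent.FBH.Volume

set_option autoImplicit false

open MeasureTheory

namespace Pool.Agent.Results.MP_03b7b7_gt.BusemannHausdorff

/-- There is an irreversible Finsler metric on the cylinder `ℝ × S¹` (given as a function on the
tangent bundle of the plane that is `2π`-periodic in the second coordinate) which is geodesically
complete in both time directions, has finite Busemann–Hausdorff volume and has no closed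
geodesic. -/
theorem result :
  ∃ F : (ℝ × ℝ) × (ℝ × ℝ) → ℝ,
    Continuous F ∧
    (∀ z, 0 ≤ F z) ∧
    ContDiffOn ℝ ((⊤ : ℕ∞) : WithTop ℕ∞) F {z | z.2 ≠ 0} ∧
    (∀ p v : ℝ × ℝ, F ((p.1, p.2 + 2 * Real.pi), v) = F (p, v)) ∧
    (∀ p v : ℝ × ℝ, ∀ c : ℝ, 0 < c → F (p, c • v) = c * F (p, v)) ∧
    (∀ p v w : ℝ × ℝ, v ≠ 0 → w ≠ 0 →
      0 < fderiv ℝ (fderiv ℝ (fun u : ℝ × ℝ => F (p, u) ^ 2)) v w w) ∧
    (∃ p v : ℝ × ℝ, F (p, -v) ≠ F (p, v)) ∧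
    (∀ x v : ℝ × ℝ, v ≠ 0 → ∃ γ : ℝ → ℝ × ℝ, ContDiff ℝ 2 γ ∧ γ 0 = x ∧ deriv γ 0 = v ∧
      ∀ t : ℝ,
        deriv (fun s => fderiv ℝ (fun u : ℝ × ℝ => F (γ s, u) ^ 2) (deriv γ s)) t
          = fderiv ℝ (fun q : ℝ × ℝ => F (q, deriv γ t) ^ 2) (γ t)) ∧
    (∫⁻ x in (Set.univ : Set ℝ) ×ˢ Set.Ico (0 : ℝ) (2 * Real.pi),
        ENNReal.ofReal Real.pi / volume {v : ℝ × ℝ | F (x, v) ≤ 1}) < ⊤ ∧
    ¬ ∃ γ : ℝ → ℝ × ℝ, ∃ T : ℝ, ∃ k : ℤ,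
        ContDiff ℝ 2 γ ∧ 0 < T ∧ (∀ t, deriv γ t ≠ 0) ∧
        (∀ t, γ (t + T) = γ t + ((0 : ℝ), 2 * Real.pi * (k : ℝ))) ∧
        ∀ t : ℝ,
          deriv (fun s => fderiv ℝ (fun u : ℝ × ℝ => F (γ s, u) ^ 2) (deriv γ s)) t
            = fderiv ℝ (fun q : ℝ × ℝ => F (q, deriv γ t) ^ 2) (γ t) := by
  refine ⟨Pool.Agent.FBH.FF, Pool.Agent.FBH.continuous_FF, Pool.Agent.FBH.FF_nonneg,
    fun z hz => (Pool.Agent.FBH.contDiffAt_FF hz).contDiffWithinAt, fun p v => rfl,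
    fun p v c hc => Pool.Agent.FBH.FF_smul hc p v, ?_, ?_, Pool.Agent.FBH.complete,
    Pool.Agent.FBH.volume_finite, Pool.Agent.FBH.no_closed⟩
  · intro p v w hv hw
    simp only [Pool.Agent.FBH.FF_sq]
    exact Pool.Agent.FBH.hess_pos hv hw
  · refine ⟨(1, 0), (0, 1), fun h => ?_⟩
    have h2 := congrArg (fun x : ℝ => x ^ 2) h
    simp only [Pool.Agent.FBH.FF_sq, Pool.Agent.FBH.GG, Pool.Agent.FBH.nn, Pool.Agent.FBH.sp] at h2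
    norm_num at h2
    rw [← sub_eq_add_neg, Real.cosh_sub_sinh, ← Real.exp_nat_mul] at h2
    have h3 : Real.exp ((2 : ℕ) * (-1 : ℝ)) < 1 := Real.exp_lt_one_iff.2 (by norm_num)
    have h4 : 1 < Real.exp 2 := Real.one_lt_exp_iff.2 (by norm_num)
    linarith

end Pool.Agent.Results.MP_03b7b7_gt.BusemannHausdorff
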