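import Mathlib
import Pool.Agent.FHT.Closed

set_option autoImplicit false

open MeasureTheory

namespace Pool.Agent.Results.MP_03b7b7_gt.RotationInvariant

/-- A rotationally invariant Finsler metric on the cylinder `ℝ × S¹` (a function on the tangent
bundle of the plane which does not depend on the second coordinate of the point) which is forward
complete and has finite Holmes–Thompson volume has a closed geodesic in each of the two
directions around the cylinder, namely a circle `{x} × S¹` run in that direction. -/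
theorem result (F : (ℝ × ℝ) × (ℝ × ℝ) → ℝ)
    (hcont : Continuous F)
    (hnonneg : ∀ z, 0 ≤ F z)
    (hsmooth : ContDiffOn ℝ ((⊤ : ℕ∞) : WithTop ℕ∞) F {z | z.2 ≠ 0})
    (hinv : ∀ p v : ℝ × ℝ, ∀ s : ℝ, F ((p.1, p.2 + s), v) = F (p, v))
    (hhom : ∀ p v : ℝ × ℝ, ∀ c : ℝ, 0 < c → F (p, c • v) = c * F (p, v))
    (hhess : ∀ p v w : ℝ × ℝ, v ≠ 0 → w ≠ 0 →
      0 < fderiv ℝ (fderiv ℝ (fun u : ℝ × ℝ => F (p, u) ^ 2)) v w w)
    (hcomplete : ∀ x v : ℝ × ℝ, v ≠ 0 → ∃ γ : ℝ → ℝ × ℝ, ContDiff ℝ 2 γ ∧ γ 0 = x ∧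
      deriv γ 0 = v ∧ ∀ t : ℝ, 0 < t →
        deriv (fun s => fderiv ℝ (fun u : ℝ × ℝ => F (γ s, u) ^ 2) (deriv γ s)) t
          = fderiv ℝ (fun q : ℝ × ℝ => F (q, deriv γ t) ^ 2) (γ t))
    (hvolume : ∫⁻ x in (Set.univ : Set ℝ) ×ˢ Set.Ico (0 : ℝ) (2 * Real.pi),
        volume {ξ : ℝ × ℝ | ∀ v : ℝ × ℝ, F (x, v) ≤ 1 → ξ.1 * v.1 + ξ.2 * v.2 ≤ 1} < ⊤) :
    ∀ k : ℤ, (k = 1 ∨ k = -1) →
      ∃ x : ℝ, ∃ γ : ℝ → ℝ × ℝ, (∀ t, γ t = (x, (k : ℝ) * t)) ∧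
        ContDiff ℝ 2 γ ∧ (∀ t, deriv γ t ≠ 0) ∧
        (∀ t, γ (t + 2 * Real.pi) = γ t + ((0 : ℝ), 2 * Real.pi * (k : ℝ))) ∧
        ∀ t : ℝ,
          deriv (fun s => fderiv ℝ (fun u : ℝ × ℝ => F (γ s, u) ^ 2) (deriv γ s)) t
            = fderiv ℝ (fun q : ℝ × ℝ => F (q, deriv γ t) ^ 2) (γ t) := by
  intro k hk
  have h : Pool.Agent.FHT.RotFin F :=
    ⟨hcont, hnonneg, hsmooth, fun p v s => hinv p v s, hhom, hhess⟩
  have hf : |(k : ℝ)| = 1 := by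
    rcases hk with rfl | rfl <;> simp
  have hf0 : (k : ℝ) ≠ 0 := by
    intro h0
    rw [h0] at hf
    norm_num at hf
  obtain ⟨x, hx⟩ := h.exists_circle hcomplete hvolume hf
  have hd : ∀ t, HasDerivAt (fun t : ℝ => ((x, (k : ℝ) * t) : ℝ × ℝ)) (0, (k : ℝ)) t := by
    intro t
    have h1 : HasDerivAt (fun t : ℝ => (k : ℝ) * t) (k : ℝ) t := by
      simpa using (hasDerivAt_id t).const_mul (k : ℝ)
    exact (hasDerivAt_const t x).prodMk h1
  have hd' : deriv (fun t : ℝ => ((x, (k : ℝ) * t) : ℝ × ℝ)) = fun _ => (0, (k : ℝ)) := by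
    funext t
    exact (hd t).deriv
  refine ⟨x, fun t => (x, (k : ℝ) * t), fun t => rfl, by fun_prop, fun t => ?_, fun t => ?_,
    fun t => ?_⟩
  · rw [hd']
    simp [hf0]
  · ext
    · simp
    · simp; ring
  · rw [hd']
    have h1 : (fun s : ℝ => fderiv ℝ (fun u : ℝ × ℝ => F ((x, (k : ℝ) * s), u) ^ 2)
        ((fun _ : ℝ => ((0 : ℝ), (k : ℝ))) s)) =
        fun _ => fderiv ℝ (fun u : ℝ × ℝ => F ((x, 0), u) ^ 2) (0, (k : ℝ)) := by
      funext s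
      have h2 : (fun u : ℝ × ℝ => F ((x, (k : ℝ) * s), u) ^ 2) =
          fun u : ℝ × ℝ => F ((x, 0), u) ^ 2 := by
        funext u
        rw [h.base_inv (x := (x, (k : ℝ) * s)) (y := (x, 0)) rfl]
      simp only [h2]
    rw [h1, deriv_const]
    exact (h.circle_geodesic hf0 hx t).symm

end Pool.Agent.Results.MP_03b7b7_gt.RotationInvariant
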